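import Mathlib
import Pool.Agent.H40ES.AsmG
import Pool.Agent.H40ES.Blo

/-!
# Common Frobenius eigenvalues of a Hilbert newform and of an abelian variety

Let `f` be a Hilbert newform of parallel weight two over `F`, without complex multiplication, and `r` its `ℓ`-adic
representation, of dimension two, which is irreducible on every open subgroup.  For a prime `𝔭` of degree one, of norm
`p`, the characteristic polynomial of Frobenius on `r` is `X² - aX + p`, `a` the eigenvalue of the Hecke operator.  Let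
`B` be any abelian variety over `F` and `V` its `ℓ`-adic representation, a direct sum of irreducible representations
(Faltings), whose Frobenius polynomials are monic with integral coefficients and roots of absolute value `√p` (Weil).

We show that `r` is a factor of `V` on an open subgroup as soon as ONE Frobenius element outside a small set has a common
eigenvalue on `r` and on `V`, if `a` is rational, or `f` is ordinary at `p` (that is `a` is prime to `p`).  Then `f` has
an associated abelian variety `A_f`: `r` is a factor of the representation of the restriction of scalars of `B` from the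
finite extension of `F` defined by the open subgroup.
-/

set_option autoImplicit false

namespace Pool.Agent.Results.MP_e1ffa3_nt.CommonEigenvalue

open Matrix MeasureTheory

section Defs

variable {Γ C : Type} [Group Γ] [Field C]

/-- A representation in matrices is irreducible: its dimension is positive, and it has no stable subspace other than
zero and the whole space. -/
def IsIrreducible {n : ℕ} (ρ : Γ →* Matrix (Fin n) (Fin n) C) : Prop :=
  0 < n ∧ ∀ U : Submodule C (Fin n → C), (∀ g, ∀ u ∈ U, ρ g *ᵥ u ∈ U) → U = ⊥ ∨ U = ⊤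

/-- The restriction of `r` to every open subgroup is irreducible (`f` has no complex multiplication). -/
def IsIrreducibleOnOpen [TopologicalSpace Γ] (r : Γ →* Matrix (Fin 2) (Fin 2) C) : Prop :=
  ∀ D : Subgroup Γ, IsOpen (D : Set Γ) → ∀ U : Submodule C (Fin 2 → C),
    (∀ g ∈ D, ∀ u ∈ U, r g *ᵥ u ∈ U) → U = ⊥ ∨ U = ⊤

variable {s : ℕ} {n : Fin s → ℕ}

/-- The dimensions `2, n 0, n 1, …`. -/
def dims (n : Fin s → ℕ) : Fin (s + 1) → ℕ := Fin.cons 2 n

/-- The representations `r, ρ 0, ρ 1, …`. -/
def family (r : Γ →* Matrix (Fin 2) (Fin 2) C) (ρ : ∀ j, Γ →* Matrix (Fin (n j)) (Fin (n j)) C) :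
    ∀ j, Γ →* Matrix (Fin (dims n j)) (Fin (dims n j)) C := Fin.cases r ρ

/-- The direct sum of the representations `ρ j`. -/
def directSum (ρ : ∀ j, Γ →* Matrix (Fin (n j)) (Fin (n j)) C) :
    Γ →* Matrix (Σ j, Fin (n j)) (Σ j, Fin (n j)) C where
  toFun g := Matrix.blockDiagonal' fun j => ρ j g
  map_one' := (Pool.Agent.H40LT.blk ρ).map_one
  map_mul' g g' := (Pool.Agent.H40LT.blk ρ).map_mul g g'

/-- The monodromy of `T` is connected: every polynomial over `C` in the entries of the matrices which vanishes on an open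
subgroup vanishes on the whole group. -/
def HasConnectedMonodromy [TopologicalSpace Γ] {I : Type} [Fintype I] [DecidableEq I] (T : Γ →* Matrix I I C) : Prop :=
  ∀ D : Subgroup Γ, IsOpen (D : Set Γ) → ∀ P : MvPolynomial (I × I) C,
    (∀ x ∈ D, MvPolynomial.eval (fun q => T x q.1 q.2) P = 0) → ∀ x, MvPolynomial.eval (fun q => T x q.1 q.2) P = 0

/-- The characteristic polynomial of `σ` on the direct sum `V` of the `ρ j`. -/
noncomputable def charpolyV (ρ : ∀ j, Γ →* Matrix (Fin (n j)) (Fin (n j)) C) (σ : Γ) : Polynomial C :=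
  ∏ j, (ρ j σ).charpoly

/-- `a` is an integer and `a² ≤ 4p`. -/
def IsRationalTrace (p : ℕ) (a : C) : Prop := ∃ m : ℤ, a = m ∧ m ^ 2 ≤ 4 * p

/-- `a` is prime to `p` in the ring of the algebraic integers of `C`: `f` is ordinary at all places above `p`. -/
def IsOrdinaryTrace (p : ℕ) (a : C) : Prop := ∃ u w : C, IsIntegral ℤ u ∧ IsIntegral ℤ w ∧ u * a + w * p = 1

/-- `σ` is like a Frobenius element at a prime of degree one: for some prime number `p` the characteristic polynomial on
`r` is `X² - aX + p`, where `a` is rational with `a² ≤ 4p` or ordinary, and the one on `V` is a monic polynomial with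
integral coefficients all of whose complex roots have the absolute value `√p`. -/
def IsFrobeniusLike (r : Γ →* Matrix (Fin 2) (Fin 2) C) (ρ : ∀ j, Γ →* Matrix (Fin (n j)) (Fin (n j)) C) (σ : Γ) :
    Prop :=
  ∃ (p : ℕ) (a : C) (P : Polynomial ℤ), p.Prime ∧
    (r σ).charpoly = Polynomial.X ^ 2 - Polynomial.C a * Polynomial.X + Polynomial.C (p : C) ∧
    (IsRationalTrace p a ∨ IsOrdinaryTrace p a) ∧
    P.Monic ∧ charpolyV ρ σ = P.map (Int.castRingHom C) ∧ ∀ z : ℂ, Polynomial.aeval z P = 0 → ‖z‖ ^ 2 = p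

/-- `σ` has a common eigenvalue on `r` and on `V`. -/
def HasCommonEigenvalue (r : Γ →* Matrix (Fin 2) (Fin 2) C) (ρ : ∀ j, Γ →* Matrix (Fin (n j)) (Fin (n j)) C) (σ : Γ) :
    Prop := ∃ z : C, (r σ).charpoly.IsRoot z ∧ (charpolyV ρ σ).IsRoot z

/-- On the subgroup `D`, `r` is isomorphic to a subrepresentation of one of the `ρ j`. -/
def IsFactorOn (D : Subgroup Γ) (r : Γ →* Matrix (Fin 2) (Fin 2) C)
    (ρ : ∀ j, Γ →* Matrix (Fin (n j)) (Fin (n j)) C) : Prop :=
  ∃ (j : Fin s) (B : Matrix (Fin (n j)) (Fin 2) C), (∀ v, B *ᵥ v = 0 → v = 0) ∧ ∀ x ∈ D, ρ j x * B = B * r x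

/-- A closed set of Haar measure zero, stable under conjugation. -/
def IsSmall [TopologicalSpace Γ] [IsTopologicalGroup Γ] [CompactSpace Γ] [MeasurableSpace Γ] [BorelSpace Γ]
    (Z : Set Γ) : Prop := IsClosed Z ∧ Measure.haar Z = 0 ∧ ∀ x ∈ Z, ∀ τ, τ * x * τ⁻¹ ∈ Z

end Defs

/-- **Theorem.** Let `Γ` be a compact group, `r` a continuous two-dimensional representation, irreducible on every open
subgroup, and `V` a direct sum of continuous irreducible representations `ρ j` of `Γ`, over an algebraically closed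
Hausdorff topological field `C` of characteristic zero (for example the algebraic closure of `ℚ_ℓ`).  Let `S` be a set
of elements which are like Frobenius elements.  There are an open normal subgroup `D`, equal to `Γ` if the monodromy of
`r ⊕ V` is connected, and a closed set `Z` of Haar measure zero, stable under conjugation, such that: if ONE element of
`S` which is in `D` and not in `Z` has a common eigenvalue on `r` and on `V`, then `r` is isomorphic on `D` to a
subrepresentation of one of the `ρ j`. -/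
theorem result (C : Type) [Field C] [CharZero C] [IsAlgClosed C] [TopologicalSpace C] [IsTopologicalRing C] [T2Space C]
    (Γ : Type) [Group Γ] [TopologicalSpace Γ] [IsTopologicalGroup Γ] [CompactSpace Γ] [MeasurableSpace Γ]
    [BorelSpace Γ] (r : Γ →* Matrix (Fin 2) (Fin 2) C) (hr : Continuous r) (hirr : IsIrreducibleOnOpen r)
    (s : ℕ) (n : Fin s → ℕ) (ρ : ∀ j, Γ →* Matrix (Fin (n j)) (Fin (n j)) C)
    (hρ : ∀ j, Continuous (ρ j)) (hρirr : ∀ j, IsIrreducible (ρ j)) (S : Set Γ)
    (hS : ∀ σ ∈ S, IsFrobeniusLike r ρ σ) :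
    ∃ D : Subgroup Γ, D.Normal ∧ IsOpen (D : Set Γ) ∧
      (HasConnectedMonodromy (directSum (family r ρ)) → D = ⊤) ∧
      ∃ Z : Set Γ, IsSmall Z ∧ ∀ σ ∈ S, σ ∈ D → σ ∉ Z → HasCommonEigenvalue r ρ σ → IsFactorOn D r ρ := by
  have hr1 : Pool.Agent.H40GO.Irr r := by
    refine ⟨⟨0⟩, fun U hU => hirr ⊤ isOpen_univ U fun g _ => hU g⟩
  have hirr' : ∀ j, Pool.Agent.H40GO.Irr (family r ρ j) := by
    intro j
    refine Fin.cases ?_ (fun j => ?_) j
    · exact hr1
    · exact ⟨⟨⟨0, (hρirr j).1⟩⟩, (hρirr j).2⟩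
  have hcont : ∀ j, Continuous (family r ρ j) := by
    intro j
    refine Fin.cases ?_ (fun j => ?_) j
    · exact hr
    · exact hρ j
  have hprod : ∀ σ, ∏ j ∈ Finset.univ.erase (0 : Fin (s + 1)), (family r ρ j σ).charpoly = charpolyV ρ σ := by
    intro σ
    have h1 : Finset.univ.erase (0 : Fin (s + 1)) = Finset.univ.map (Fin.succEmb s) := by
      ext j
      simp only [Finset.mem_erase, Finset.mem_univ, and_true, Finset.mem_map, true_and]
      constructor
      · intro hj
        obtain ⟨i, rfl⟩ := Fin.exists_succ_eq.mpr hj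
        exact ⟨i, rfl⟩
      · rintro ⟨i, rfl⟩
        exact Fin.succ_ne_zero i
    rw [h1, Finset.prod_map]
    rfl
  obtain ⟨D, hD1, hD2, hD3, Z, hZ1, hZ2, hZ3, hZ4⟩ :=
    Pool.Agent.H40ES.factorG Measure.haar (dims n) (family r ρ) hcont hirr' 0 rfl hirr S (by
      intro σ hσ
      obtain ⟨p, a, P, h1, h3, h2, h4, h5, h6⟩ := hS σ hσ
      refine ⟨p, a, P, h1, h3, ?_, h4, ?_, h6⟩
      · rcases h2 with ⟨m, hm, h2⟩ | h2
        · left
          refine ⟨m, hm, lt_of_le_of_ne h2 fun h => ?_⟩
          have h7 : (2 : ℤ) ∣ m := by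
            have : (2 : ℤ) ∣ m ^ 2 := ⟨2 * p, by rw [h]; ring⟩
            exact Int.prime_two.dvd_of_dvd_pow this
          obtain ⟨c, rfl⟩ := h7
          have h8 : c ^ 2 = (p : ℤ) := by linarith [h, show (2 * c) ^ 2 = 4 * c ^ 2 by ring]
          have h9 : c.natAbs ^ 2 = p := by
            have := congrArg Int.natAbs h8
            rwa [Int.natAbs_pow, Int.natAbs_natCast] at this
          have h10 : Nat.Prime (c.natAbs ^ 2) := h9 ▸ h1
          exact Nat.Prime.not_prime_pow (le_refl 2) h10
        · exact Or.inr h2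
      · rw [hprod]
        exact h5)
  refine ⟨D, hD1, hD2, fun h => hD3 ?_, Z, ⟨hZ1, hZ2, hZ3⟩, ?_⟩
  · intro D' hD' _ P hP x _
    exact h D' hD' P hP x
  rintro σ hσS hσ hσZ ⟨z, hz1, hz2⟩
  obtain ⟨B, hB0, hB1, hB2, hB3⟩ := hZ4 σ hσS hσ hσZ z hz1 (by rw [hprod]; exact hz2)
  obtain ⟨j, hj, B', hB', hB'2⟩ := Pool.Agent.H40ES.block_of (family r ρ) 0 D B hB0 hB1 hB2 hB3
  obtain ⟨i, rfl⟩ := Fin.exists_succ_eq.mpr hj
  obtain ⟨T, hT0, hT⟩ : ∃ T : Matrix (Fin (n i)) (Fin 2) C, T ≠ 0 ∧ ∀ x ∈ D, ρ i x * T = T * r x := ⟨B', hB', hB'2⟩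
  refine ⟨i, T, ?_, hT⟩
  have h2 := hirr D hD2 (LinearMap.ker (Matrix.mulVecLin T)) (by
    intro g hg u hu
    rw [LinearMap.mem_ker, Matrix.mulVecLin_apply] at hu ⊢
    rw [Matrix.mulVec_mulVec, ← hT g hg, ← Matrix.mulVec_mulVec, hu, Matrix.mulVec_zero])
  rcases h2 with h2 | h2
  · intro v hv
    have h3 : v ∈ LinearMap.ker (Matrix.mulVecLin T) := by
      rw [LinearMap.mem_ker, Matrix.mulVecLin_apply]
      exact hv
    rwa [h2, Submodule.mem_bot] at h3
  · exfalso
    apply hT0
    apply Matrix.toLin'.injective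
    apply LinearMap.ext
    intro w
    have h3 : w ∈ LinearMap.ker (Matrix.mulVecLin T) := by
      rw [h2]
      exact Submodule.mem_top
    rw [LinearMap.mem_ker, Matrix.mulVecLin_apply] at h3
    rw [Matrix.toLin'_apply, h3, map_zero, LinearMap.zero_apply]

end Pool.Agent.Results.MP_e1ffa3_nt.CommonEigenvalue
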