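import Mathlib
import Pool.Agent.H40ES.Div
import Pool.Agent.H40ES.Blo

/-!
# Point counts of a rational Hilbert newform and of an abelian variety

Let `f` be a Hilbert newform of parallel weight two over `F` with rational Hecke eigenvalues `a_𝔭`, without complex
multiplication.  It should have an elliptic curve `A_f` over `F`, with `N𝔭 + 1 - a_𝔭` points over the residue field of
`𝔭`.  Let `B` be any abelian variety over `F`.  We show that `f` has an associated elliptic curve, and that it is a factor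
of `B` over a finite extension of `F`, if for ONE prime number `ℓ` the `ℓ`-part of `N𝔭 + 1 - a_𝔭` is at most a constant
times the `ℓ`-part of the number of points of `B` over the residue field of `𝔭`, for all primes `𝔭` of degree one outside
a finite set; for example if `N𝔭 + 1 - a_𝔭` divides `M · #B(𝔽_𝔭)` for all these primes, `M` a fixed nonzero integer.

The theorem is about the representation `r` of `f` and the representation `V` of `B` over the algebraic closure `C` of
`ℚ_ℓ`.  It uses that the image of Galois on `r ⊕ V` contains homotheties (Bogomolov, Serre) and that the image of Galois on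
`r` is open in `GL₂(ℤ_ℓ)`.
-/

set_option autoImplicit false

namespace Pool.Agent.Results.MP_e1ffa3_nt.PointCounts

open Matrix MeasureTheory

section Defs

variable {Γ C : Type} [Group Γ] [Field C]

/-- A representation in matrices is irreducible: its dimension is positive, and it has no stable subspace other than
zero and the whole space. -/
def IsIrreducible {n : ℕ} (ρ : Γ →* Matrix (Fin n) (Fin n) C) : Prop :=
  0 < n ∧ ∀ U : Submodule C (Fin n → C), (∀ g, ∀ u ∈ U, ρ g *ᵥ u ∈ U) → U = ⊥ ∨ U = ⊤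

/-- The restriction of `r` to every open subgroup is irreducible (`f` has no complex multiplication). -/
def IsIrreducibleOnOpen [TopologicalSpace Γ] (r : Γ →* Matrix (Fin 2) (Fin 2) C) : Prop :=
  ∀ D : Subgroup Γ, IsOpen (D : Set Γ) → ∀ U : Submodule C (Fin 2 → C),
    (∀ g ∈ D, ∀ u ∈ U, r g *ᵥ u ∈ U) → U = ⊥ ∨ U = ⊤

variable {s : ℕ} {n : Fin s → ℕ}

/-- The dimensions `2, n 0, n 1, …`. -/
def dims (n : Fin s → ℕ) : Fin (s + 1) → ℕ := Fin.cons 2 n

/-- The representations `r, ρ 0, ρ 1, …`. -/
def family (r : Γ →* Matrix (Fin 2) (Fin 2) C) (ρ : ∀ j, Γ →* Matrix (Fin (n j)) (Fin (n j)) C) :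
    ∀ j, Γ →* Matrix (Fin (dims n j)) (Fin (dims n j)) C := Fin.cases r ρ

/-- The direct sum of the representations `ρ j`. -/
def directSum (ρ : ∀ j, Γ →* Matrix (Fin (n j)) (Fin (n j)) C) :
    Γ →* Matrix (Σ j, Fin (n j)) (Σ j, Fin (n j)) C where
  toFun g := Matrix.blockDiagonal' fun j => ρ j g
  map_one' := (Pool.Agent.H40LT.blk ρ).map_one
  map_mul' g g' := (Pool.Agent.H40LT.blk ρ).map_mul g g'

/-- The monodromy of `T` is connected: every polynomial over `C` in the entries of the matrices which vanishes on an open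
subgroup vanishes on the whole group. -/
def HasConnectedMonodromy [TopologicalSpace Γ] {I : Type} [Fintype I] [DecidableEq I] (T : Γ →* Matrix I I C) : Prop :=
  ∀ D : Subgroup Γ, IsOpen (D : Set Γ) → ∀ P : MvPolynomial (I × I) C,
    (∀ x ∈ D, MvPolynomial.eval (fun q => T x q.1 q.2) P = 0) → ∀ x, MvPolynomial.eval (fun q => T x q.1 q.2) P = 0

/-- The characteristic polynomial of `σ` on the direct sum `V` of the `ρ j`. -/
noncomputable def charpolyV (ρ : ∀ j, Γ →* Matrix (Fin (n j)) (Fin (n j)) C) (σ : Γ) : Polynomial C :=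
  ∏ j, (ρ j σ).charpoly

/-- `σ` is like a Frobenius element at a prime of degree one: for some prime number `p` the characteristic polynomial on
`r` is `X² - aX + p` with an integer `a`, `a² ≤ 4p`, and the one on `V` is a monic polynomial `P` with integral
coefficients all of whose complex roots have the absolute value `√p`; and `‖P(1)‖ ≤ c ‖p + 1 - a‖` in `C`. -/
def IsFrobeniusWithCounts {C : Type} [NormedField C] (c : ℝ) (r : Γ →* Matrix (Fin 2) (Fin 2) C)
    (ρ : ∀ j, Γ →* Matrix (Fin (n j)) (Fin (n j)) C) (σ : Γ) : Prop :=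
  ∃ (p : ℕ) (a : ℤ) (P : Polynomial ℤ), p.Prime ∧ a ^ 2 ≤ 4 * p ∧
    (r σ).charpoly = Polynomial.X ^ 2 - Polynomial.C (a : C) * Polynomial.X + Polynomial.C (p : C) ∧
    P.Monic ∧ charpolyV ρ σ = P.map (Int.castRingHom C) ∧ (∀ z : ℂ, Polynomial.aeval z P = 0 → ‖z‖ ^ 2 = p) ∧
    ‖((P.eval 1 : ℤ) : C)‖ ≤ c * ‖(((p : ℤ) + 1 - a : ℤ) : C)‖

/-- Every eigenvalue in `K` of an element on `r` has a power which is a homothety: it is the scalar by which some element
of `Γ` acts on `r` and on `V`. -/
def HasHomotheties (K : Subfield C) (r : Γ →* Matrix (Fin 2) (Fin 2) C)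
    (ρ : ∀ j, Γ →* Matrix (Fin (n j)) (Fin (n j)) C) : Prop :=
  ∀ α ∈ K, ∀ x, (r x).charpoly.IsRoot α → ∃ k : ℕ, 0 < k ∧ ∃ τ : Γ, r τ = (α ^ k) • 1 ∧ ∀ j, ρ j τ = (α ^ k) • 1

/-- Every open subgroup contains a nonempty open set of elements which have on `r` an eigenvalue in `K`. -/
def IsSplitOnOpen [TopologicalSpace Γ] (K : Subfield C) (r : Γ →* Matrix (Fin 2) (Fin 2) C) : Prop :=
  ∀ D : Subgroup Γ, IsOpen (D : Set Γ) → ∃ W : Set Γ, IsOpen W ∧ W.Nonempty ∧ W ⊆ D ∧
    ∀ x ∈ W, ∃ α ∈ K, (r x).charpoly.IsRoot α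

/-- On the subgroup `D`, `r` is isomorphic to a subrepresentation of one of the `ρ j`. -/
def IsFactorOn (D : Subgroup Γ) (r : Γ →* Matrix (Fin 2) (Fin 2) C)
    (ρ : ∀ j, Γ →* Matrix (Fin (n j)) (Fin (n j)) C) : Prop :=
  ∃ (j : Fin s) (B : Matrix (Fin (n j)) (Fin 2) C), (∀ v, B *ᵥ v = 0 → v = 0) ∧ ∀ x ∈ D, ρ j x * B = B * r x

end Defs

/-- **Theorem.** Let `C` be an algebraically closed normed field of characteristic zero (for example the algebraic
closure of `ℚ_ℓ`), `K` a subfield (for example `ℚ_ℓ`), `Γ` a compact group, `r` a continuous two-dimensional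
representation, irreducible on every open subgroup, and `V` a direct sum of continuous irreducible representations `ρ j`
of `Γ` over `C`.  Suppose that the eigenvalues in `K` of the elements on `r` have powers which are homotheties, and that
every open subgroup contains a nonempty open set of elements with an eigenvalue in `K` on `r`.  Let `S` be a dense subset
of elements which are like Frobenius elements, with `‖P(1)‖ ≤ c ‖p + 1 - a‖`.  Then there is an open normal subgroup `D`,
equal to `Γ` if the monodromy of `r ⊕ V` is connected, such that `r` is isomorphic on `D` to a subrepresentation of one of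
the `ρ j`. -/
theorem result (C : Type) [NormedField C] [CharZero C] [IsAlgClosed C] (K : Subfield C)
    (Γ : Type) [Group Γ] [TopologicalSpace Γ] [IsTopologicalGroup Γ] [CompactSpace Γ]
    (r : Γ →* Matrix (Fin 2) (Fin 2) C) (hr : Continuous r) (hirr : IsIrreducibleOnOpen r)
    (s : ℕ) (n : Fin s → ℕ) (ρ : ∀ j, Γ →* Matrix (Fin (n j)) (Fin (n j)) C)
    (hρ : ∀ j, Continuous (ρ j)) (hρirr : ∀ j, IsIrreducible (ρ j)) (hhom : HasHomotheties K r ρ)
    (hsplit : IsSplitOnOpen K r) (S : Set Γ) (hSd : Dense S) (c : ℝ)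
    (hS : ∀ σ ∈ S, IsFrobeniusWithCounts c r ρ σ) :
    ∃ D : Subgroup Γ, D.Normal ∧ IsOpen (D : Set Γ) ∧
      (HasConnectedMonodromy (directSum (family r ρ)) → D = ⊤) ∧ IsFactorOn D r ρ := by
  let _ : MeasurableSpace Γ := borel Γ
  have _ : BorelSpace Γ := ⟨rfl⟩
  have hr1 : Pool.Agent.H40GO.Irr r := by
    refine ⟨⟨0⟩, fun U hU => hirr ⊤ isOpen_univ U fun g _ => hU g⟩
  have hirr' : ∀ j, Pool.Agent.H40GO.Irr (family r ρ j) := by
    intro j
    refine Fin.cases ?_ (fun j => ?_) j
    · exact hr1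
    · exact ⟨⟨⟨0, (hρirr j).1⟩⟩, (hρirr j).2⟩
  have hcont : ∀ j, Continuous (family r ρ j) := by
    intro j
    refine Fin.cases ?_ (fun j => ?_) j
    · exact hr
    · exact hρ j
  have hprod : ∀ σ, ∏ j ∈ Finset.univ.erase (0 : Fin (s + 1)), (family r ρ j σ).charpoly = charpolyV ρ σ := by
    intro σ
    have h1 : Finset.univ.erase (0 : Fin (s + 1)) = Finset.univ.map (Fin.succEmb s) := by
      ext j
      simp only [Finset.mem_erase, Finset.mem_univ, and_true, Finset.mem_map, true_and]
      constructor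
      · intro hj
        obtain ⟨i, rfl⟩ := Fin.exists_succ_eq.mpr hj
        exact ⟨i, rfl⟩
      · rintro ⟨i, rfl⟩
        exact Fin.succ_ne_zero i
    rw [h1, Finset.prod_map]
    rfl
  obtain ⟨D, hD1, hD2, hD3, B, hB0, hB1, hB2, hB3⟩ :=
    Pool.Agent.H40ES.counts Measure.haar (dims n) (family r ρ) hcont hirr' 0 rfl hirr (K : Set C) (by
      intro α hα x hx
      obtain ⟨k, hk, τ, h1, h2⟩ := hhom α hα x hx
      refine ⟨k, hk, τ, fun j => ?_⟩
      refine Fin.cases ?_ (fun j => ?_) j
      · exact h1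
      · exact h2 j) hsplit S hSd c (by
      intro σ hσ
      obtain ⟨p, a, P, h1, h2, h3, h4, h5, h6, h7⟩ := hS σ hσ
      refine ⟨p, a, P, ⟨h1, ?_, h3, h4, ?_, h6⟩, ?_⟩
      · refine lt_of_le_of_ne h2 fun h => ?_
        have h7 : (2 : ℤ) ∣ a := by
          have : (2 : ℤ) ∣ a ^ 2 := ⟨2 * p, by rw [h]; ring⟩
          exact Int.prime_two.dvd_of_dvd_pow this
        obtain ⟨c, rfl⟩ := h7
        have h8 : c ^ 2 = (p : ℤ) := by linarith [h, show (2 * c) ^ 2 = 4 * c ^ 2 by ring]
        have h9 : c.natAbs ^ 2 = p := by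
          have := congrArg Int.natAbs h8
          rwa [Int.natAbs_pow, Int.natAbs_natCast] at this
        have h10 : Nat.Prime (c.natAbs ^ 2) := h9 ▸ h1
        exact Nat.Prime.not_prime_pow (le_refl 2) h10
      · rw [hprod]
        exact h5
      · have e1 : ∏ j ∈ Finset.univ.erase (0 : Fin (s + 1)), (family r ρ j σ).charpoly.eval 1 =
            ((P.eval 1 : ℤ) : C) := by
          rw [← Polynomial.eval_prod, hprod, h5, Polynomial.eval_one_map]
          rfl
        have e2 : (family r ρ 0 σ).charpoly.eval 1 = (((p : ℤ) + 1 - a : ℤ) : C) := by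
          have e3 : (family r ρ 0 σ).charpoly =
              Polynomial.X ^ 2 - Polynomial.C (a : C) * Polynomial.X + Polynomial.C (p : C) := h3
          rw [e3]
          simp only [Polynomial.eval_add, Polynomial.eval_sub, Polynomial.eval_mul, Polynomial.eval_pow,
            Polynomial.eval_X, Polynomial.eval_C]
          push_cast
          ring
        rw [e1, e2]
        exact h7)
  refine ⟨D, hD1, hD2, fun h => hD3 ?_, ?_⟩
  · intro D' hD' _ P hP x _
    exact h D' hD' P hP x
  obtain ⟨j, hj, B', hB', hB'2⟩ := Pool.Agent.H40ES.block_of (family r ρ) 0 D B hB0 hB1 hB2 hB3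
  obtain ⟨i, rfl⟩ := Fin.exists_succ_eq.mpr hj
  obtain ⟨T, hT0, hT⟩ : ∃ T : Matrix (Fin (n i)) (Fin 2) C, T ≠ 0 ∧ ∀ x ∈ D, ρ i x * T = T * r x := ⟨B', hB', hB'2⟩
  refine ⟨i, T, ?_, hT⟩
  have h2 := hirr D hD2 (LinearMap.ker (Matrix.mulVecLin T)) (by
    intro g hg u hu
    rw [LinearMap.mem_ker, Matrix.mulVecLin_apply] at hu ⊢
    rw [Matrix.mulVec_mulVec, ← hT g hg, ← Matrix.mulVec_mulVec, hu, Matrix.mulVec_zero])
  rcases h2 with h2 | h2
  · intro v hv
    have h3 : v ∈ LinearMap.ker (Matrix.mulVecLin T) := by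
      rw [LinearMap.mem_ker, Matrix.mulVecLin_apply]
      exact hv
    rwa [h2, Submodule.mem_bot] at h3
  · exfalso
    apply hT0
    apply Matrix.toLin'.injective
    apply LinearMap.ext
    intro w
    have h3 : w ∈ LinearMap.ker (Matrix.mulVecLin T) := by
      rw [h2]
      exact Submodule.mem_top
    rw [LinearMap.mem_ker, Matrix.mulVecLin_apply] at h3
    rw [Matrix.toLin'_apply, h3, map_zero, LinearMap.zero_apply]

end Pool.Agent.Results.MP_e1ffa3_nt.PointCounts
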