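import Mathlib
import Pool.Agent.H40ES.AsmS
import Pool.Agent.H40ES.Blo

/-!
# A Hilbert newform in the tensor category of an abelian variety

Let `f` be a Hilbert newform of parallel weight two over `F`, without complex multiplication, and `r` its `ℓ`-adic
representation, of dimension two.  For a prime `𝔭` of degree one, of norm `p`, the characteristic polynomial of Frobenius
on `r` is `X² - aX + p`, `a` the eigenvalue of the Hecke operator, and divides the polynomial `R = ∏ (X² - τ(a)X + p)`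
with integral coefficients, of degree `d = 2 [K_f : ℚ]`, with roots of absolute value `√p`.  Let `B` be any abelian variety
over `F` and `V` its `ℓ`-adic representation, a direct sum of irreducible representations (Faltings).

We show: if `r ⊗ r` is algebraic over `V` on an open subgroup, for example if `r` or `r ⊗ r` is there a subquotient of a
tensor construction `V^{⊗a} ⊗ (V^∨)^{⊗b}`, then `r` itself is a factor of `V` on an open subgroup, if there is one Frobenius
element outside a small set with `a` rational or prime to `p` (`f` ordinary at `p`).  So `f` has an associated abelian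
variety as soon as `r ⊗ r` is in the tensor category of some abelian variety.
-/

set_option autoImplicit false

namespace Pool.Agent.Results.MP_e1ffa3_nt.TensorCategory

open Matrix MeasureTheory

section Defs

variable {Γ C : Type} [Group Γ] [Field C]

/-- A representation in matrices is irreducible: its dimension is positive, and it has no stable subspace other than
zero and the whole space. -/
def IsIrreducible {n : ℕ} (ρ : Γ →* Matrix (Fin n) (Fin n) C) : Prop :=
  0 < n ∧ ∀ U : Submodule C (Fin n → C), (∀ g, ∀ u ∈ U, ρ g *ᵥ u ∈ U) → U = ⊥ ∨ U = ⊤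

/-- The restriction of `r` to every open subgroup is irreducible (`f` has no complex multiplication). -/
def IsIrreducibleOnOpen [TopologicalSpace Γ] (r : Γ →* Matrix (Fin 2) (Fin 2) C) : Prop :=
  ∀ D : Subgroup Γ, IsOpen (D : Set Γ) → ∀ U : Submodule C (Fin 2 → C),
    (∀ g ∈ D, ∀ u ∈ U, r g *ᵥ u ∈ U) → U = ⊥ ∨ U = ⊤

variable {s : ℕ} {n : Fin s → ℕ}

/-- The dimensions `2, n 0, n 1, …`. -/
def dims (n : Fin s → ℕ) : Fin (s + 1) → ℕ := Fin.cons 2 n

/-- The representations `r, ρ 0, ρ 1, …`. -/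
def family (r : Γ →* Matrix (Fin 2) (Fin 2) C) (ρ : ∀ j, Γ →* Matrix (Fin (n j)) (Fin (n j)) C) :
    ∀ j, Γ →* Matrix (Fin (dims n j)) (Fin (dims n j)) C := Fin.cases r ρ

/-- The direct sum of the representations `ρ j`. -/
def directSum (ρ : ∀ j, Γ →* Matrix (Fin (n j)) (Fin (n j)) C) :
    Γ →* Matrix (Σ j, Fin (n j)) (Σ j, Fin (n j)) C where
  toFun g := Matrix.blockDiagonal' fun j => ρ j g
  map_one' := (Pool.Agent.H40LT.blk ρ).map_one
  map_mul' g g' := (Pool.Agent.H40LT.blk ρ).map_mul g g'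

/-- The monodromy of `T` is connected: every polynomial over `C` in the entries of the matrices which vanishes on an open
subgroup vanishes on the whole group. -/
def HasConnectedMonodromy [TopologicalSpace Γ] {I : Type} [Fintype I] [DecidableEq I] (T : Γ →* Matrix I I C) : Prop :=
  ∀ D : Subgroup Γ, IsOpen (D : Set Γ) → ∀ P : MvPolynomial (I × I) C,
    (∀ x ∈ D, MvPolynomial.eval (fun q => T x q.1 q.2) P = 0) → ∀ x, MvPolynomial.eval (fun q => T x q.1 q.2) P = 0

/-- The characteristic polynomial of `σ` on the direct sum `V` of the `ρ j`. -/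
noncomputable def charpolyV (ρ : ∀ j, Γ →* Matrix (Fin (n j)) (Fin (n j)) C) (σ : Γ) : Polynomial C :=
  ∏ j, (ρ j σ).charpoly

/-- `a` is an integer and `a² ≤ 4p`. -/
def IsRationalTrace (p : ℕ) (a : C) : Prop := ∃ m : ℤ, a = m ∧ m ^ 2 ≤ 4 * p

/-- `a` is prime to `p` in the ring of the algebraic integers of `C`: `f` is ordinary at all places above `p`. -/
def IsOrdinaryTrace (p : ℕ) (a : C) : Prop := ∃ u w : C, IsIntegral ℤ u ∧ IsIntegral ℤ w ∧ u * a + w * p = 1

/-- `P` is monic and all its complex roots have the absolute value `√p`. -/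
def HasWeilRoots (p : ℕ) (P : Polynomial ℤ) : Prop := P.Monic ∧ ∀ z : ℂ, Polynomial.aeval z P = 0 → ‖z‖ ^ 2 = p

/-- `σ` is like a Frobenius element at a prime of degree one: for some prime number `p` the characteristic polynomial on
`r` is `X² - aX + p`, where `a` is rational with `a² ≤ 4p` or ordinary, and divides a monic polynomial of degree at most
`d` with integral coefficients and roots of absolute value `√p`; and the one on `V` is a monic polynomial with integral
coefficients and roots of absolute value `√p`. -/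
def IsFrobeniusLike (d : ℕ) (r : Γ →* Matrix (Fin 2) (Fin 2) C)
    (ρ : ∀ j, Γ →* Matrix (Fin (n j)) (Fin (n j)) C) (σ : Γ) : Prop :=
  ∃ (p : ℕ) (a : C) (R P : Polynomial ℤ), p.Prime ∧
    (r σ).charpoly = Polynomial.X ^ 2 - Polynomial.C a * Polynomial.X + Polynomial.C (p : C) ∧
    (IsRationalTrace p a ∨ IsOrdinaryTrace p a) ∧
    R.natDegree ≤ d ∧ HasWeilRoots p R ∧ (r σ).charpoly ∣ R.map (Int.castRingHom C) ∧
    HasWeilRoots p P ∧ charpolyV ρ σ = P.map (Int.castRingHom C)

/-- The value of a polynomial in matrix entries at the matrix `V x`. -/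
noncomputable def valueAt (ρ : ∀ j, Γ →* Matrix (Fin (n j)) (Fin (n j)) C) (x : Γ)
    (A : MvPolynomial ((Σ j, Fin (n j)) × (Σ j, Fin (n j))) C) : C :=
  MvPolynomial.eval (fun q => directSum ρ x q.1 q.2) A

/-- On the subgroup `U`, the function `f` is a rational function `B / A` of the matrix entries of `V x`, with `A` not zero
at `x = 1`. -/
def IsRationalFunction (U : Subgroup Γ) (ρ : ∀ j, Γ →* Matrix (Fin (n j)) (Fin (n j)) C) (f : Γ → C) : Prop :=
  ∃ A B, valueAt ρ 1 A ≠ 0 ∧ ∀ x ∈ U, f x * valueAt ρ x A = valueAt ρ x B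

/-- `r ⊗ r` is algebraic over `V` on an open subgroup: there the products of two matrix entries of `r x` are rational
functions of the matrix entries of `V x`. -/
def IsTensorAlgebraic [TopologicalSpace Γ] (r : Γ →* Matrix (Fin 2) (Fin 2) C)
    (ρ : ∀ j, Γ →* Matrix (Fin (n j)) (Fin (n j)) C) : Prop :=
  ∃ U : Subgroup Γ, IsOpen (U : Set Γ) ∧ ∀ i j i' j' : Fin 2, IsRationalFunction U ρ fun x => r x i j * r x i' j'

/-- On the subgroup `D`, `r` is isomorphic to a subrepresentation of one of the `ρ j`. -/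
def IsFactorOn (D : Subgroup Γ) (r : Γ →* Matrix (Fin 2) (Fin 2) C)
    (ρ : ∀ j, Γ →* Matrix (Fin (n j)) (Fin (n j)) C) : Prop :=
  ∃ (j : Fin s) (B : Matrix (Fin (n j)) (Fin 2) C), (∀ v, B *ᵥ v = 0 → v = 0) ∧ ∀ x ∈ D, ρ j x * B = B * r x

/-- A closed set of Haar measure zero, stable under conjugation. -/
def IsSmall [TopologicalSpace Γ] [IsTopologicalGroup Γ] [CompactSpace Γ] [MeasurableSpace Γ] [BorelSpace Γ]
    (Z : Set Γ) : Prop := IsClosed Z ∧ Measure.haar Z = 0 ∧ ∀ x ∈ Z, ∀ τ, τ * x * τ⁻¹ ∈ Z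


theorem family_apply (r : Γ →* Matrix (Fin 2) (Fin 2) C) (ρ : ∀ j, Γ →* Matrix (Fin (n j)) (Fin (n j)) C) (x : Γ)
    (p q : Σ j, Fin (n j)) :
    Pool.Agent.H40LT.blk (family r ρ) x ⟨p.1.succ, p.2⟩ ⟨q.1.succ, q.2⟩ = directSum ρ x p q := by
  obtain ⟨j, i⟩ := p
  obtain ⟨j', i'⟩ := q
  by_cases h : j = j'
  · subst h
    have h1 := Pool.Agent.H40LT.blk_apply ρ x j i i'
    exact (Pool.Agent.H40LT.blk_apply (family r ρ) x j.succ i i').trans h1.symm
  · have h1 : directSum ρ x ⟨j, i⟩ ⟨j', i'⟩ = 0 := by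
      change Matrix.blockDiagonal' (fun j => ρ j x) ⟨j, i⟩ ⟨j', i'⟩ = 0
      exact Matrix.blockDiagonal'_apply_ne _ _ _ h
    rw [h1]
    change Matrix.blockDiagonal' (fun j => family r ρ j x) ⟨j.succ, i⟩ ⟨j'.succ, i'⟩ = 0
    exact Matrix.blockDiagonal'_apply_ne _ _ _ fun h2 => h (Fin.succ_injective _ h2)

end Defs

/-- **Theorem.** Let `Γ` be a compact group, `r` a continuous two-dimensional representation, irreducible on every open
subgroup, and `V` a direct sum of continuous irreducible representations `ρ j` of `Γ`, over an algebraically closed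
Hausdorff topological field `C` of characteristic zero (for example the algebraic closure of `ℚ_ℓ`).  Let `S` be a set
of elements which are like Frobenius elements.  Suppose that `r ⊗ r` is algebraic over `V` on an open subgroup.  There
are an open normal subgroup `D`, equal to `Γ` if the monodromy of `r ⊕ V` is connected, and a closed set `Z` of Haar
measure zero, stable under conjugation, such that: if there is ONE element of `S` in `D` and not in `Z`, then `r` is
isomorphic on `D` to a subrepresentation of one of the `ρ j`. -/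
theorem result (C : Type) [Field C] [CharZero C] [IsAlgClosed C] [TopologicalSpace C] [IsTopologicalRing C] [T2Space C]
    (Γ : Type) [Group Γ] [TopologicalSpace Γ] [IsTopologicalGroup Γ] [CompactSpace Γ] [MeasurableSpace Γ]
    [BorelSpace Γ] (r : Γ →* Matrix (Fin 2) (Fin 2) C) (hr : Continuous r) (hirr : IsIrreducibleOnOpen r)
    (s : ℕ) (n : Fin s → ℕ) (ρ : ∀ j, Γ →* Matrix (Fin (n j)) (Fin (n j)) C)
    (hρ : ∀ j, Continuous (ρ j)) (hρirr : ∀ j, IsIrreducible (ρ j)) (d : ℕ) (S : Set Γ)
    (hS : ∀ σ ∈ S, IsFrobeniusLike d r ρ σ) (halg : IsTensorAlgebraic r ρ) :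
    ∃ D : Subgroup Γ, D.Normal ∧ IsOpen (D : Set Γ) ∧
      (HasConnectedMonodromy (directSum (family r ρ)) → D = ⊤) ∧
      ∃ Z : Set Γ, IsSmall Z ∧ ((∃ σ ∈ S, σ ∈ D ∧ σ ∉ Z) → IsFactorOn D r ρ) := by
  have hr1 : Pool.Agent.H40GO.Irr r := by
    refine ⟨⟨0⟩, fun U hU => hirr ⊤ isOpen_univ U fun g _ => hU g⟩
  have hirr' : ∀ j, Pool.Agent.H40GO.Irr (family r ρ j) := by
    intro j
    refine Fin.cases ?_ (fun j => ?_) j
    · exact hr1
    · exact ⟨⟨⟨0, (hρirr j).1⟩⟩, (hρirr j).2⟩
  have hcont : ∀ j, Continuous (family r ρ j) := by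
    intro j
    refine Fin.cases ?_ (fun j => ?_) j
    · exact hr
    · exact hρ j
  have hprod : ∀ σ, ∏ j ∈ Finset.univ.erase (0 : Fin (s + 1)), (family r ρ j σ).charpoly = charpolyV ρ σ := by
    intro σ
    have h1 : Finset.univ.erase (0 : Fin (s + 1)) = Finset.univ.map (Fin.succEmb s) := by
      ext j
      simp only [Finset.mem_erase, Finset.mem_univ, and_true, Finset.mem_map, true_and]
      constructor
      · intro hj
        obtain ⟨i, rfl⟩ := Fin.exists_succ_eq.mpr hj
        exact ⟨i, rfl⟩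
      · rintro ⟨i, rfl⟩
        exact Fin.succ_ne_zero i
    rw [h1, Finset.prod_map]
    rfl
  obtain ⟨U, hU, hUR⟩ := halg
  obtain ⟨D, hD1, hD2, hD3, Z, hZ1, hZ2, hZ3, hZ4⟩ :=
    Pool.Agent.H40ES.tensor_factor Measure.haar (dims n) (family r ρ) hcont hirr' 0 rfl hirr d S (by
      intro σ hσ
      obtain ⟨p, a, R, P, h1, h3, h2, h4, h5, h6, h7, h8⟩ := hS σ hσ
      refine ⟨p, a, R, P, h1, h3, ?_, h5.1, h4, h5.2, ?_, h7.1, ?_, h7.2⟩
      · rcases h2 with ⟨m, hm, h2⟩ | h2
        · left
          refine ⟨m, hm, lt_of_le_of_ne h2 fun h => ?_⟩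
          have h7 : (2 : ℤ) ∣ m := by
            have : (2 : ℤ) ∣ m ^ 2 := ⟨2 * p, by rw [h]; ring⟩
            exact Int.prime_two.dvd_of_dvd_pow this
          obtain ⟨c, rfl⟩ := h7
          have h8 : c ^ 2 = (p : ℤ) := by linarith [h, show (2 * c) ^ 2 = 4 * c ^ 2 by ring]
          have h9 : c.natAbs ^ 2 = p := by
            have := congrArg Int.natAbs h8
            rwa [Int.natAbs_pow, Int.natAbs_natCast] at this
          have h10 : Nat.Prime (c.natAbs ^ 2) := h9 ▸ h1
          exact Nat.Prime.not_prime_pow (le_refl 2) h10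
        · exact Or.inr h2
      · intro z hz
        obtain ⟨T, hT⟩ := h6
        have e1 : (R.map (Int.castRingHom C)).eval z = 0 := by
          rw [hT, Polynomial.eval_mul]
          have e2 : (r σ).charpoly.eval z = 0 := hz
          rw [e2, zero_mul]
        rw [Polynomial.eval_map] at e1
        rw [Polynomial.aeval_def]
        have e3 : algebraMap ℤ C = Int.castRingHom C := RingHom.ext_int _ _
        rw [e3]
        exact e1
      · rw [hprod]
        exact h8) (fun q : (Σ j, Fin (n j)) × (Σ j, Fin (n j)) =>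
          ((⟨q.1.1.succ, q.1.2⟩, ⟨q.2.1.succ, q.2.2⟩) :
            (Σ j, Fin (dims n j)) × (Σ j, Fin (dims n j)))) (fun q => Fin.succ_ne_zero _) U hU (by
      rintro ⟨j₁, i₁⟩ ⟨j₂, i₂⟩ ⟨j₃, i₃⟩ ⟨j₄, i₄⟩ h1 h2 h3 h4
      obtain rfl : j₁ = 0 := h1
      obtain rfl : j₂ = 0 := h2
      obtain rfl : j₃ = 0 := h3
      obtain rfl : j₄ = 0 := h4
      obtain ⟨A, B, hA, hAB⟩ := hUR i₁ i₂ i₃ i₄
      unfold valueAt at hA hAB
      refine ⟨A, B, ?_, fun x hx => ?_⟩
      · simp only [family_apply]
        exact hA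
      · simp only [family_apply]
        rw [← hAB x hx, Pool.Agent.H40LT.blk_apply, Pool.Agent.H40LT.blk_apply]
        rfl)
  refine ⟨D, hD1, hD2, fun h => hD3 ?_, Z, ⟨hZ1, hZ2, hZ3⟩, ?_⟩
  · intro D' hD' _ P hP x _
    exact h D' hD' P hP x
  rintro ⟨σ, hσS, hσ, hσZ⟩
  obtain ⟨B, hB0, hB1, hB2, hB3⟩ := hZ4 σ hσS hσ hσZ
  obtain ⟨j, hj, B', hB', hB'2⟩ := Pool.Agent.H40ES.block_of (family r ρ) 0 D B hB0 hB1 hB2 hB3
  obtain ⟨i, rfl⟩ := Fin.exists_succ_eq.mpr hj
  obtain ⟨T, hT0, hT⟩ : ∃ T : Matrix (Fin (n i)) (Fin 2) C, T ≠ 0 ∧ ∀ x ∈ D, ρ i x * T = T * r x := ⟨B', hB', hB'2⟩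
  refine ⟨i, T, ?_, hT⟩
  have h2 := hirr D hD2 (LinearMap.ker (Matrix.mulVecLin T)) (by
    intro g hg u hu
    rw [LinearMap.mem_ker, Matrix.mulVecLin_apply] at hu ⊢
    rw [Matrix.mulVec_mulVec, ← hT g hg, ← Matrix.mulVec_mulVec, hu, Matrix.mulVec_zero])
  rcases h2 with h2 | h2
  · intro v hv
    have h3 : v ∈ LinearMap.ker (Matrix.mulVecLin T) := by
      rw [LinearMap.mem_ker, Matrix.mulVecLin_apply]
      exact hv
    rwa [h2, Submodule.mem_bot] at h3
  · exfalso
    apply hT0
    apply Matrix.toLin'.injective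
    apply LinearMap.ext
    intro w
    have h3 : w ∈ LinearMap.ker (Matrix.mulVecLin T) := by
      rw [h2]
      exact Submodule.mem_top
    rw [LinearMap.mem_ker, Matrix.mulVecLin_apply] at h3
    rw [Matrix.toLin'_apply, h3, map_zero, LinearMap.zero_apply]

end Pool.Agent.Results.MP_e1ffa3_nt.TensorCategory
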